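import Pool.Agent.X169.WTF.Ibp
import Pool.Agent.X169.WT.BriU

/-!
Closedness: limits of taming forms with primitives bounded and converging only pointwise.
-/

set_option autoImplicit false

open Set Filter Topology MeasureTheory
open scoped Manifold ContDiff

noncomputable section

namespace Pool.Agent.X169.WTF

open Pool.Agent.Y501.SYP Pool.Agent.X169.WTP

section

variable {d : ℕ} {X : Type} [TopologicalSpace X] [ChartedSpace (ES d) X]

/-- pointwise convergence of endomorphisms, in the charts -/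
def ConvEnd (Jk : ℕ → End (ES d) X) (J : End (ES d) X) : Prop :=
  ∀ (x₀ : X), ∀ p ∈ (chartAt (ES d) x₀).target, ∀ v : ES d,
    Tendsto (fun k => inChart (Jk k) x₀ p v) atTop (𝓝 (inChart J x₀ p v))

/-- pointwise and locally bounded convergence of one-forms, in the charts -/
structure ConvForm (β : ℕ → Form (ES d) X 1) (α : Form (ES d) X 1) : Prop where
  lim : ∀ (x₀ : X), ∀ p ∈ (chartAt (ES d) x₀).target, ∀ v : ES d,
    Tendsto (fun k => pb (chartAt (ES d) x₀).symm (β k) p ![v]) atTop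
      (𝓝 (pb (chartAt (ES d) x₀).symm α p ![v]))
  bound : ∀ x₀ : X, ∃ N ∈ 𝓝 (chartAt (ES d) x₀ x₀), ∃ C : ℝ, ∀ k, ∀ p ∈ N, ∀ v : ES d,
    |pb (chartAt (ES d) x₀).symm (β k) p ![v]| ≤ C * ‖v‖

/-- Every point has a neighbourhood `U` in the chart, the same for all `k`, such that
`(σ + η k)(v, w) ≥ τ(v, w)` at all points of `U` for `w = J_k(p) v`, for all `p` in `U`. -/
def UnifAbove (σ τ : Form (ES d) X 2) (η : ℕ → Form (ES d) X 2) (Jk : ℕ → End (ES d) X) : Prop :=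
  ∀ x₀ : X, ∃ U : Set (ES d), IsOpen U ∧ chartAt (ES d) x₀ x₀ ∈ U ∧
    U ⊆ (chartAt (ES d) x₀).target ∧ ∀ k, ∀ p ∈ U, ∀ y ∈ U, ∀ v : ES d,
      pb (chartAt (ES d) x₀).symm τ y ![v, inChart (Jk k) x₀ p v] ≤
        pb (chartAt (ES d) x₀).symm (addF σ (η k)) y ![v, inChart (Jk k) x₀ p v]

attribute [local instance] cs mf

theorem weaklyAbove_of_limit [IsManifold 𝓘(ℝ, ES d) ∞ X]
    {σ τ : Form (ES d) X 2} (hσ : IsSmooth σ) (hτ : IsSmooth τ)
    {β : ℕ → Form (ES d) X 1} {η : ℕ → Form (ES d) X 2} (hβ : ∀ k, IsSmooth (β k))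
    (hD : ∀ k, IsD (β k) (η k)) {α : Form (ES d) X 1}
    {Jk : ℕ → End (ES d) X} {J : End (ES d) X} (hJk : ConvEnd Jk J) (hβα : ConvForm β α)
    (hpos : UnifAbove σ τ η Jk) : WeaklyAbove σ τ α J := by
  intro x₀
  obtain ⟨U, hU, hx, hUt, hp⟩ := hpos x₀
  obtain ⟨N, hN, C, hC⟩ := hβα.bound x₀
  obtain ⟨N', hN'sub, hN'open, hxN'⟩ := mem_nhds_iff.1 hN
  refine ⟨U ∩ N', hU.inter hN'open, ⟨hx, hxN'⟩, inter_subset_left.trans hUt, ?_⟩
  intro φ hφ p hpU v
  set W : Set (ES d) := U ∩ N' with hW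
  have hWo : IsOpen W := hU.inter hN'open
  have hWt : W ⊆ (chartAt (ES d) x₀).target := inter_subset_left.trans hUt
  have hpar : SmoothParam (chartAt (ES d) x₀).target (chartAt (ES d) x₀).symm :=
    ⟨(chartAt (ES d) x₀).open_target, contMDiffOn_chart_symm⟩
  let S : ES d → (ES d) [⋀^Fin 2]→L[ℝ] ℝ := fun y =>
    pb (chartAt (ES d) x₀).symm σ y - pb (chartAt (ES d) x₀).symm τ y
  have hS : ContinuousOn S W :=
    ((hσ _ _ hpar).continuousOn.sub (hτ _ _ hpar).continuousOn).mono hWt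
  have hA : ∀ k, ContDiffOn ℝ ∞ (pb (chartAt (ES d) x₀).symm (β k)) W := fun k =>
    (hβ k _ _ hpar).mono hWt
  have hlim := cur_lim (d := d) hWo hφ.smooth hφ.compact hφ.supp (fun k => (hA k).continuousOn)
    hS (fun y hy => hβα.lim x₀ y (hWt hy))
    (fun k y hy => hC k y (hN'sub hy.2)) v (hJk x₀ p (hWt hpU) v)
  have hk : ∀ k, 0 ≤ ∫ y, (φ y * S y ![v, inChart (Jk k) x₀ p v] +
      (fderiv ℝ φ y (inChart (Jk k) x₀ p v) * pb (chartAt (ES d) x₀).symm (β k) y ![v] -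
        fderiv ℝ φ y v * pb (chartAt (ES d) x₀).symm (β k) y ![inChart (Jk k) x₀ p v]))
      ∂(leb d) := by
    intro k
    have h1 := ibp (d := d) hWo hφ.smooth hφ.compact hφ.supp (hA k) hS v
      (inChart (Jk k) x₀ p v)
    refine le_of_le_of_eq ?_ h1.symm
    refine integral_nonneg fun y => ?_
    by_cases hy : y ∈ W
    · refine mul_nonneg (hφ.nonneg y) ?_
      have h2 := hp k p hpU.1 y hy.1 v
      have h3 := hD k _ _ hpar y (hWt hy)
      have h4 : pb (chartAt (ES d) x₀).symm (addF σ (η k)) y ![v, inChart (Jk k) x₀ p v] =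
          pb (chartAt (ES d) x₀).symm σ y ![v, inChart (Jk k) x₀ p v] +
          pb (chartAt (ES d) x₀).symm (η k) y ![v, inChart (Jk k) x₀ p v] := rfl
      have h5 : extDeriv (pb (chartAt (ES d) x₀).symm (β k)) y
          ![v, inChart (Jk k) x₀ p v] =
          pb (chartAt (ES d) x₀).symm (η k) y ![v, inChart (Jk k) x₀ p v] := by
        rw [h3]
      have h6 : S y ![v, inChart (Jk k) x₀ p v] =
          pb (chartAt (ES d) x₀).symm σ y ![v, inChart (Jk k) x₀ p v] -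
          pb (chartAt (ES d) x₀).symm τ y ![v, inChart (Jk k) x₀ p v] := rfl
      have h7 : 0 ≤ S y ![v, inChart (Jk k) x₀ p v] +
          extDeriv (pb (chartAt (ES d) x₀).symm (β k)) y ![v, inChart (Jk k) x₀ p v] := by
        rw [h6, h5]
        linarith
      exact h7
    · have h0 : φ y = 0 := image_eq_zero_of_notMem_tsupport fun h => hy (hφ.supp h)
      show 0 ≤ φ y * _
      rw [h0, zero_mul]
  exact ge_of_tendsto' hlim hk

theorem closedness {m k : ℕ} {Y : Type} [TopologicalSpace Y] [ChartedSpace (ES m) Y]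
    [IsManifold 𝓘(ℝ, ES d) ∞ X] [CompactSpace X] [T2Space X]
    [IsManifold 𝓘(ℝ, ES m) ∞ Y] [T2Space Y]
    (J : End (ES d) X) (hJ : IsAlmostComplex J)
    (f : X → Y) (hf : ContMDiff 𝓘(ℝ, ES d) 𝓘(ℝ, ES m) ∞ f)
    (σ τ : Form (ES d) X 2) (hσ : IsSmooth σ) (hσc : IsClosedForm σ) (hτ : IsSmooth τ)
    (κ : Fin k → Form (ES d) X 2) (hκ : ∀ i, IsSmooth (κ i)) (hκc : ∀ i, IsClosedForm (κ i))
    (Jn : ℕ → End (ES d) X) (hJn : ConvEnd Jn J)
    (βn : ℕ → Form (ES d) X 1) (ηn : ℕ → Form (ES d) X 2) (hβn : ∀ n, IsSmooth (βn n))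
    (hDn : ∀ n, IsD (βn n) (ηn n))
    (α : Form (ES d) X 1) (hα : IsContinuousForm α) (hconv : ConvForm βn α)
    (hpos : UnifAbove σ τ ηn Jn)
    (hker : ∀ (x : X) (v : TangentSpace 𝓘(ℝ, ES d) x), qd τ J x v ≤ 0 →
      mfderiv 𝓘(ℝ, ES d) 𝓘(ℝ, ES m) f x v = 0)
    (hsmall : SmallOnFibres τ J f) :
    ∃ (β : Form (ES d) X 1) (η : Form (ES d) X 2), IsSmooth β ∧ IsSmooth η ∧ IsD β η ∧
      ∃ ε : ℝ, 0 < ε ∧ ∀ s : Fin k → ℝ, (∀ i, |s i| ≤ ε) →
        IsTamingSymplectic (addF (perturb σ κ s) η) J ∧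
        ∀ ρ : Form (ES d) X 2, (∀ x, TamesAt ρ J x) → ∀ u : ℝ, 0 ≤ u → u ≤ 1 →
          Nondeg (seg ρ (addF (perturb σ κ s) η) u) :=
  weakTamingInClass J hJ f hf σ τ hσ hσc hτ κ hκ hκc α hα
    (weaklyAbove_of_limit hσ hτ hβn hDn hJn hconv hpos) hker hsmall

end

end Pool.Agent.X169.WTF
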