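import Pool.Agent.X169.WT.BriU

/-!
Families of almost complex structures and of symplectic forms: the definitions used in the
statement of the result on null-homotopies in the space of cohomologous symplectic forms.
-/

set_option autoImplicit false

open Set Filter Topology MeasureTheory
open scoped Manifold ContDiff

noncomputable section

namespace Pool.Agent.X169.WTF

open Pool.Agent.Y501.SYP Pool.Agent.X169.WTP

section

variable {d : ℕ} {X : Type} [TopologicalSpace X] [ChartedSpace (ES d) X]

/-- a family of almost complex structures, jointly continuous in the parameter and in the point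
of the chart -/
structure IsFamily {T : Type} [TopologicalSpace T] (J : T → End (ES d) X) : Prop where
  sq : ∀ (t : T) (x : X) (v : TangentSpace 𝓘(ℝ, ES d) x), J t x (J t x v) = -v
  cont : ∀ (x₀ : X) (v : ES d),
    ContinuousOn (fun q : T × ES d => inChart (J q.1) x₀ q.2 v)
      (univ ×ˢ (chartAt (ES d) x₀).target)

/-- `J` is weakly tamed in the class of `σ`: for some smooth map `f`, some smooth form `τ` and some
continuous one-form `α` the current `σ + dα` is bounded below by `τ` on the pairs `(v, J v)`, the
differential of `f` vanishes on the vectors `v` with `τ(v, J v) ≤ 0`, and in each fibre of `f` the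
components of the set of the points at which `τ` does not tame `J` are small. -/
def WeaklyTamed (σ : Form (ES d) X 2) (J : End (ES d) X) : Prop :=
  ∃ (m : ℕ) (Y : Type) (_ : TopologicalSpace Y) (_ : ChartedSpace (ES m) Y)
    (_ : IsManifold 𝓘(ℝ, ES m) ∞ Y) (_ : T2Space Y) (f : X → Y) (τ : Form (ES d) X 2)
    (α : Form (ES d) X 1),
    ContMDiff 𝓘(ℝ, ES d) 𝓘(ℝ, ES m) ∞ f ∧ IsSmooth τ ∧ IsContinuousForm α ∧
    WeaklyAbove σ τ α J ∧
    (∀ (x : X) (v : TangentSpace 𝓘(ℝ, ES d) x), qd τ J x v ≤ 0 →
      mfderiv 𝓘(ℝ, ES d) 𝓘(ℝ, ES m) f x v = 0) ∧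
    SmallOnFibres τ J f

/-- `w` is a symplectic form in the class of `σ`. -/
def InS (σ w : Form (ES d) X 2) : Prop :=
  IsSmooth w ∧ IsClosedForm w ∧ Nondeg w ∧
    ∃ (β : Form (ES d) X 1) (η : Form (ES d) X 2), IsSmooth β ∧ IsSmooth η ∧ IsD β η ∧
      w = addF σ η

/-- The family `Θ` of forms is continuous in the `C^∞` topology. -/
def CInf {S : Type} [TopologicalSpace S] (Θ : S → Form (ES d) X 2) : Prop :=
  ∀ (U : Set (ES d)) (φ : ES d → X), SmoothParam U φ → ∀ N : ℕ,
    ContinuousOn (fun q : S × ES d => iteratedFDeriv ℝ N (pb φ (Θ q.1)) q.2) (univ ×ˢ U)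

end

end Pool.Agent.X169.WTF
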