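import Pool.Agent.X169.WTF.Top

/-!
Weakly tamed families of almost complex structures and null-homotopies in the space of the
symplectic forms of a cohomology class.
-/

set_option autoImplicit false

open Set Filter Topology MeasureTheory
open scoped Manifold ContDiff

noncomputable section

namespace Pool.Agent.X169.WTF

open Pool.Agent.Y501.SYP Pool.Agent.X169.WTP

section

variable {d : ℕ} {X : Type} [TopologicalSpace X] [ChartedSpace (Y501.SY.E d) X]

theorem isD_sum {n : ℕ} (c : Fin n → ℝ) (β : Fin n → Y501.SY.Form d X 1)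
    (η : Fin n → Y501.SY.Form d X 2) (hβ : ∀ i, Y501.SY.IsSmooth (β i))
    (hD : ∀ i, Y501.SY.IsD (β i) (η i)) (A : Finset (Fin n)) :
    Y501.SY.IsSmooth (∑ i ∈ A, c i • β i) ∧
      Y501.SY.IsD (∑ i ∈ A, c i • β i) (∑ i ∈ A, c i • η i) := by
  classical
  induction A using Finset.induction_on with
  | empty =>
    rw [Finset.sum_empty, Finset.sum_empty]
    exact ⟨Y501.SY.IsSmooth.zero, Y501.SY.IsD.zero⟩
  | insert a A ha ih =>
    rw [Finset.sum_insert ha, Finset.sum_insert ha]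
    have e1 : Y501.SY.IsSmooth (c a • β a) := Y501.SY.IsSmooth.smul (hβ a) (c a)
    exact ⟨e1.add ih.1, Y501.SY.IsD.add (Y501.SY.IsD.smul (hD a) (c a)) ih.2 e1 ih.1⟩

end

section

variable {d : ℕ} {X : Type} [TopologicalSpace X] [ChartedSpace (ES d) X]
  {T : Type} [TopologicalSpace T]

attribute [local instance] cs mf

theorem weak_exists [IsManifold 𝓘(ℝ, ES d) ∞ X] [CompactSpace X] [T2Space X]
    {σ : Form (ES d) X 2} (hσ : IsSmooth σ) (hσc : IsClosedForm σ) {J : End (ES d) X}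
    (hJ : IsAlmostComplex J) (h : WeaklyTamed σ J) :
    ∃ (β : Form (ES d) X 1) (η : Form (ES d) X 2), IsSmooth β ∧ IsSmooth η ∧ IsD β η ∧
      IsTamingSymplectic (addF σ η) J := by
  obtain ⟨m, Y, i1, i2, i3, i4, f, τ, α, hf, hτ, hα, hweak, hker, hsmall⟩ := h
  exact weakTaming J hJ f hf σ τ hσ hσc hτ α hα hweak hker hsmall

theorem nondeg_of {w : Form (ES d) X 2} {J : End (ES d) X} (h : ∀ x, TamesAt w J x) :
    Nondeg w := by
  intro x v hv
  by_contra hne
  have h2 : 0 < w x ![v, J x v] := h x v hne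
  rw [hv (J x v)] at h2
  exact lt_irrefl _ h2

/-- a convex combination of taming forms -/
theorem tames_comb {w w' : Form (ES d) X 2} {J : End (ES d) X} (h : ∀ x, TamesAt w J x)
    (h' : ∀ x, TamesAt w' J x) {a : ℝ} (h0 : 0 ≤ a) (h1 : a ≤ 1) (x : X) :
    TamesAt ((1 - a) • w + a • w') J x := by
  intro v hv
  have h2 : 0 < w x ![v, J x v] := h x v hv
  have h3 : 0 < w' x ![v, J x v] := h' x v hv
  show 0 < (1 - a) * w x ![v, J x v] + a * w' x ![v, J x v]
  rcases lt_or_eq_of_le h0 with h | h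
  · have := mul_pos h h3
    have h5 : 0 ≤ (1 - a) * w x ![v, J x v] := mul_nonneg (by linarith) h2.le
    linarith
  · rw [← h]
    simpa using h2

theorem inS_comb {σ w w' : Form (ES d) X 2} (h : InS σ w) (h' : InS σ w') (a : ℝ)
    (hn : Nondeg ((1 - a) • w + a • w')) : InS σ ((1 - a) • w + a • w') := by
  obtain ⟨s1, c1, _, β, η, b1, e1, d1, q1⟩ := h
  obtain ⟨s2, c2, _, β', η', b2, e2, d2, q2⟩ := h'
  have S : ∀ {k : ℕ} {u u' : Form (ES d) X k}, IsSmooth u → IsSmooth u' →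
      IsSmooth ((1 - a) • u + a • u') := fun hu hu' =>
    (smooth_iff _).2 ((Y501.SY.IsSmooth.smul ((smooth_iff _).1 hu) (1 - a)).add
      (Y501.SY.IsSmooth.smul ((smooth_iff _).1 hu') a))
  have D : ∀ {k : ℕ} {u u' : Form (ES d) X k} {z z' : Form (ES d) X (k + 1)}, IsSmooth u →
      IsSmooth u' → IsD u z → IsD u' z' → IsD ((1 - a) • u + a • u') ((1 - a) • z + a • z') :=
    fun hu hu' hz hz' => (isD_iff _ _).2 (Y501.SY.IsD.add
      (Y501.SY.IsD.smul ((isD_iff _ _).1 hz) (1 - a)) (Y501.SY.IsD.smul ((isD_iff _ _).1 hz') a)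
      (Y501.SY.IsSmooth.smul ((smooth_iff _).1 hu) (1 - a))
      (Y501.SY.IsSmooth.smul ((smooth_iff _).1 hu') a))
  refine ⟨S s1 s2, ?_, hn, (1 - a) • β + a • β', (1 - a) • η + a • η', S b1 b2, S e1 e2,
    D b1 b2 d1 d2, ?_⟩
  · have e3 := D (z := 0) (z' := 0) s1 s2 ((isD_iff _ _).2 ((closed_iff _).1 c1))
      ((isD_iff _ _).2 ((closed_iff _).1 c2))
    rw [smul_zero, smul_zero, add_zero] at e3
    exact (closed_iff _).2 ((isD_iff _ _).1 e3)
  · rw [q1, q2]
    funext x
    have key : ∀ s e e' : (TangentSpace 𝓘(ℝ, ES d) x) [⋀^Fin 2]→L[ℝ] ℝ,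
        (1 - a) • (s + e) + a • (s + e') = s + ((1 - a) • e + a • e') := by
      intro s e e'
      module
    exact key _ _ _

/-- finite convex combinations -/
theorem inS_sum {n : ℕ} {σ : Form (ES d) X 2} (hσ : IsSmooth σ) (hσc : IsClosedForm σ)
    (β : Fin n → Form (ES d) X 1) (η : Fin n → Form (ES d) X 2) (hβ : ∀ i, IsSmooth (β i))
    (hη : ∀ i, IsSmooth (η i)) (hD : ∀ i, IsD (β i) (η i))
    (hηc : ∀ i, IsClosedForm (η i)) (c : Fin n → ℝ)
    (hn : Nondeg (addF σ (∑ i, c i • η i))) : InS σ (addF σ (∑ i, c i • η i)) := by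
  have hβ' := fun i => (smooth_iff _).1 (hβ i)
  have hη' := fun i => (smooth_iff _).1 (hη i)
  have hsm : Y501.SY.IsSmooth (d := d) (X := X) (∑ i, c i • η i) :=
    Y501.SY.IsSmooth.sum Finset.univ fun i _ => Y501.SY.IsSmooth.smul (hη' i) (c i)
  have hsb : Y501.SY.IsSmooth (d := d) (X := X) (∑ i, c i • β i) :=
    Y501.SY.IsSmooth.sum Finset.univ fun i _ => Y501.SY.IsSmooth.smul (hβ' i) (c i)
  have hcl : Y501.SY.IsClosedForm (d := d) (X := X) (∑ i, c i • η i) :=
    (X24.SYC.closed_sum c η hη' (fun i => (closed_iff _).1 (hηc i)) Finset.univ).2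
  refine ⟨(smooth_iff _).2 (Y501.SY.IsSmooth.add ((smooth_iff _).1 hσ) hsm), ?_, hn,
    ∑ i, c i • β i, ∑ i, c i • η i, (smooth_iff _).2 hsb, (smooth_iff _).2 hsm,
    (isD_iff _ _).2 (isD_sum c β η hβ' (fun i => (isD_iff _ _).1 (hD i)) Finset.univ).2, rfl⟩
  have e3 := Y501.SY.IsD.add ((closed_iff _).1 hσc) hcl ((smooth_iff _).1 hσ) hsm
  have e4 : (0 : Y501.SY.Form d X 3) + 0 = 0 := add_zero _
  rw [e4] at e3
  exact (closed_iff _).2 e3

/-- a continuous family of symplectic forms in the class of `σ`, for a weakly tamed family -/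
theorem section_exists [CompactSpace T] [T2Space T]
    [IsManifold 𝓘(ℝ, ES d) ∞ X] [CompactSpace X] [T2Space X]
    {σ : Form (ES d) X 2} (hσ : IsSmooth σ) (hσc : IsClosedForm σ) {J : T → End (ES d) X}
    (hJ : IsFamily J) (hw : ∀ t, WeaklyTamed σ (J t)) :
    ∃ Ω : T → Form (ES d) X 2, CInf Ω ∧ ∀ t, InS σ (Ω t) ∧ ∀ x, TamesAt (Ω t) (J t) x := by
  classical
  choose β η h1 h2 h3 h4 using fun t => weak_exists hσ hσc (hJ.ac t) (hw t)
  have hV : ∀ t₀, {t | ∀ x, TamesAt (addF σ (η t₀)) (J t) x} ∈ 𝓝 t₀ := fun t₀ =>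
    tames_open (h4 t₀).smooth hJ (h4 t₀).tames
  obtain ⟨F, hF⟩ := CompactSpace.elim_nhds_subcover
    (fun t₀ => interior {t | ∀ x, TamesAt (addF σ (η t₀)) (J t) x})
    (fun t₀ => interior_mem_nhds.2 (hV t₀))
  let n := F.card
  let e : Fin n ≃ F := F.equivFin.symm
  let U : Fin n → Set T := fun i =>
    interior {t | ∀ x, TamesAt (addF σ (η (e i : T))) (J t) x}
  have hcov : (univ : Set T) ⊆ ⋃ i, U i := by
    intro t _
    have ht : t ∈ ⋃ x ∈ F, interior {t | ∀ y, TamesAt (addF σ (η x)) (J t) y} := by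
      rw [hF]; exact mem_univ t
    obtain ⟨x, hx, hxt⟩ := mem_iUnion₂.1 ht
    refine mem_iUnion.2 ⟨e.symm ⟨x, hx⟩, ?_⟩
    show t ∈ interior {t | ∀ y, TamesAt (addF σ (η ((e (e.symm ⟨x, hx⟩) : F) : T))) (J t) y}
    rw [Equiv.apply_symm_apply]
    exact hxt
  obtain ⟨ρ, hρ⟩ := PartitionOfUnity.exists_isSubordinate_of_locallyFinite
    (isClosed_univ (X := T)) U (fun i => isOpen_interior) (locallyFinite_of_finite U) hcov
  have hsum : ∀ t, ∑ i, ρ i t = 1 := by
    intro t
    have := ρ.sum_eq_one (mem_univ t)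
    rwa [finsum_eq_sum_of_fintype] at this
  have hηc : ∀ t, IsClosedForm (η t) := by
    intro t
    have e1 := (h4 t).closed
    have e2 : η t = addF σ (η t) + (-1 : ℝ) • σ := by
      funext x
      have key : ∀ s e : (TangentSpace 𝓘(ℝ, ES d) x) [⋀^Fin 2]→L[ℝ] ℝ,
          e = s + e + (-1 : ℝ) • s := by
        intro s e
        module
      exact key _ _
    rw [e2]
    have e3 := Y501.SY.IsD.add ((closed_iff _).1 e1)
      (Y501.SY.IsD.smul ((closed_iff _).1 hσc) (-1))
      ((smooth_iff _).1 (h4 t).smooth) (Y501.SY.IsSmooth.smul ((smooth_iff _).1 hσ) (-1))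
    rw [smul_zero] at e3
    have e4 : (0 : Y501.SY.Form d X 3) + 0 = 0 := add_zero _
    rw [e4] at e3
    exact (closed_iff _).2 e3
  let Ω : T → Form (ES d) X 2 := fun t => addF σ (∑ i, ρ i t • η (e i : T))
  have htame : ∀ t x, TamesAt (Ω t) (J t) x := by
    intro t x v hv
    have e1 : qd (Ω t) (J t) x v =
        ∑ i, ρ i t * qd (addF σ (η (e i : T))) (J t) x v := by
      have e2 : Ω t x = ∑ i, ρ i t • (σ x + η (e i : T) x) := by
        show σ x + (∑ i, ρ i t • η (e i : T)) x = _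
        simp only [smul_add, Finset.sum_add_distrib, ← Finset.sum_smul, hsum t, one_smul,
          Finset.sum_apply, Pi.smul_apply]
      show (Ω t x) ![v, J t x v] = _
      rw [e2]
      rw [ContinuousAlternatingMap.sum_apply]
      rfl
    rw [e1]
    have hnn : ∀ i, 0 ≤ ρ i t * qd (addF σ (η (e i : T))) (J t) x v := by
      intro i
      by_cases hi : ρ i t = 0
      · rw [hi, zero_mul]
      · have hU : t ∈ U i := hρ i (subset_tsupport _ hi)
        have := interior_subset hU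
        exact mul_nonneg (ρ.nonneg i t) (this x v hv).le
    obtain ⟨i, hi⟩ : ∃ i, ρ i t ≠ 0 := by
      by_contra hne
      push Not at hne
      have := hsum t
      simp [hne] at this
    refine Finset.sum_pos' (fun i _ => hnn i) ⟨i, Finset.mem_univ i, ?_⟩
    have hU : t ∈ U i := hρ i (subset_tsupport _ hi)
    have := interior_subset hU
    exact mul_pos (lt_of_le_of_ne (ρ.nonneg i t) (Ne.symm hi)) (this x v hv)
  refine ⟨Ω, ?_, fun t => ⟨?_, htame t⟩⟩
  · have c1 : CInf (S := T) fun _ => σ := CInf.const hσ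
    have c2 : ∀ i : Fin n, CInf (S := T) fun t => ρ i t • η (e i : T) := fun i =>
      CInf.smul (CInf.const (h2 _)) (fun _ => h2 _) (ρ i).continuous
    have hs : ∀ (i : Fin n) (t : T), IsSmooth (ρ i t • η (e i : T)) := fun i t =>
      (smooth_iff _).2 (Y501.SY.IsSmooth.smul ((smooth_iff _).1 (h2 _)) (ρ i t))
    have c3 := CInf.sum Finset.univ c2 hs
    exact CInf.add c1 c3 (fun _ => hσ) fun t =>
      (smooth_iff _).2 (Y501.SY.IsSmooth.sum (d := d) (X := X) Finset.univ
        fun i _ => (smooth_iff _).1 (hs i t))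
  · exact inS_sum hσ hσc (fun i => β (e i : T)) (fun i => η (e i : T)) (fun i => h1 _)
      (fun i => h2 _) (fun i => h3 _) (fun i => hηc _) _ (nondeg_of (htame t))

/-- The main theorem. -/
theorem family [CompactSpace T] [T2Space T]
    [IsManifold 𝓘(ℝ, ES d) ∞ X] [CompactSpace X] [T2Space X]
    (J : T → End (ES d) X) (hJ : IsFamily J)
    (σ : Form (ES d) X 2) (hσ : IsSmooth σ) (hσc : IsClosedForm σ)
    (hw : ∀ t, WeaklyTamed σ (J t)) :
    ∃ Ω : T → Form (ES d) X 2, CInf Ω ∧ (∀ t, InS σ (Ω t) ∧ ∀ x, TamesAt (Ω t) (J t) x) ∧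
      ∀ (S : Type) [TopologicalSpace S] (γ : S × unitInterval → T), Continuous γ →
        ∀ θ : S → Form (ES d) X 2, CInf θ → (∀ s, InS σ (θ s)) →
          (∀ s x, TamesAt (θ s) (J (γ (s, 0))) x) →
          ∃ H : S × unitInterval → Form (ES d) X 2, CInf H ∧ (∀ q, InS σ (H q)) ∧
            (∀ s, H (s, 0) = θ s) ∧ ∀ s, H (s, 1) = Ω (γ (s, 1)) := by
  obtain ⟨Ω, hΩ, hΩt⟩ := section_exists hσ hσc hJ hw
  refine ⟨Ω, hΩ, hΩt, ?_⟩
  intro S _ γ hγ θ hθ hθS hθt
  let a : unitInterval → ℝ := fun u => min 1 (2 * (u : ℝ))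
  let b : unitInterval → unitInterval := fun u =>
    projIcc (0 : ℝ) 1 zero_le_one (2 * (u : ℝ) - 1)
  have ha : Continuous a := by
    exact continuous_const.min (continuous_const.mul continuous_subtype_val)
  have hb : Continuous b :=
    continuous_projIcc.comp ((continuous_const.mul continuous_subtype_val).sub continuous_const)
  have ha0 : ∀ u, 0 ≤ a u := fun u => le_min zero_le_one (mul_nonneg zero_le_two u.2.1)
  have ha1 : ∀ u, a u ≤ 1 := fun u => min_le_left _ _
  let g : S × unitInterval → T := fun q => γ (q.1, b q.2)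
  have hg : Continuous g := hγ.comp (continuous_fst.prodMk (hb.comp continuous_snd))
  let H : S × unitInterval → Form (ES d) X 2 := fun q =>
    (1 - a q.2) • θ q.1 + a q.2 • Ω (g q)
  have sθ : ∀ q : S × unitInterval, IsSmooth (θ q.1) := fun q => (hθS q.1).1
  have sΩ : ∀ q : S × unitInterval, IsSmooth (Ω (g q)) := fun q => (hΩt (g q)).1.1
  have htame : ∀ q x, TamesAt (H q) (J (g q)) x := by
    intro q x
    rcases le_total (q.2 : ℝ) (1 / 2) with hq | hq
    · have e1 : b q.2 = 0 := by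
        show projIcc (0 : ℝ) 1 zero_le_one (2 * (q.2 : ℝ) - 1) = 0
        rw [projIcc_of_le_left _ (by linarith)]
        rfl
      have e2 : g q = γ (q.1, 0) := by
        show γ (q.1, b q.2) = _
        rw [e1]
      rw [e2]
      refine tames_comb (hθt q.1) ?_ (ha0 _) (ha1 _) x
      intro y
      rw [e2]
      exact (hΩt _).2 y
    · have e1 : a q.2 = 1 := min_eq_left (by linarith)
      have e2 : H q = Ω (g q) := by
        show (1 - a q.2) • θ q.1 + a q.2 • Ω (g q) = _
        rw [e1, sub_self, zero_smul, one_smul, zero_add]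
      rw [e2]
      exact (hΩt _).2 x
  refine ⟨H, ?_, ?_, ?_, ?_⟩
  · refine CInf.add ?_ ?_ ?_ ?_
    · exact CInf.smul (hθ.comp continuous_fst) sθ (continuous_const.sub (ha.comp continuous_snd))
    · exact CInf.smul (hΩ.comp hg) sΩ (ha.comp continuous_snd)
    · exact fun q => (smooth_iff _).2 (Y501.SY.IsSmooth.smul ((smooth_iff _).1 (sθ q)) _)
    · exact fun q => (smooth_iff _).2 (Y501.SY.IsSmooth.smul ((smooth_iff _).1 (sΩ q)) _)
  · exact fun q => inS_comb (hθS q.1) (hΩt (g q)).1 (a q.2) (nondeg_of (htame q))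
  · intro s
    have e1 : a 0 = 0 := by
      show min 1 (2 * ((0 : unitInterval) : ℝ)) = 0
      simp
    show (1 - a 0) • θ s + a 0 • Ω (g (s, 0)) = θ s
    rw [e1, sub_zero, zero_smul, one_smul, add_zero]
  · intro s
    have e1 : a 1 = 1 := by
      show min 1 (2 * ((1 : unitInterval) : ℝ)) = 1
      rw [min_eq_left]
      simp
    have e2 : b 1 = 1 := by
      show projIcc (0 : ℝ) 1 zero_le_one (2 * ((1 : unitInterval) : ℝ) - 1) = 1
      rw [projIcc_of_right_le _ (by simp; norm_num)]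
      rfl
    show (1 - a 1) • θ s + a 1 • Ω (γ (s, b 1)) = Ω (γ (s, 1))
    rw [e1, e2, sub_self, zero_smul, one_smul, zero_add]

end

end Pool.Agent.X169.WTF
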