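import Pool.Agent.X169.WT.Main

/-!
Integration by parts and passage to the limit in the chart.
-/

set_option autoImplicit false

open Set Filter Topology MeasureTheory
open scoped Manifold ContDiff

noncomputable section

namespace Pool.Agent.X169.WTF

open Pool.Agent.Y501.SY

variable {d : ℕ}

theorem mul_cont {U : Set (E d)} (hU : IsOpen U) {h g : E d → ℝ} (hc : Continuous h)
    (hsub : tsupport h ⊆ U) (hg : ContinuousOn g U) : Continuous fun y => h y * g y := by
  refine continuous_iff_continuousAt.2 fun y => ?_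
  by_cases hy : y ∈ U
  · exact hc.continuousAt.mul (hg.continuousAt (hU.mem_nhds hy))
  · have h1 : y ∉ tsupport h := fun hh => hy (hsub hh)
    have hev : (fun y => h y * g y) =ᶠ[𝓝 y] fun _ => 0 := by
      filter_upwards [(isClosed_tsupport h).isOpen_compl.mem_nhds h1] with z hz
      rw [image_eq_zero_of_notMem_tsupport hz, zero_mul]
    exact continuousAt_const.congr hev.symm

theorem mul_int {U : Set (E d)} (hU : IsOpen U) {h g : E d → ℝ} (hc : Continuous h)
    (hs : HasCompactSupport h) (hsub : tsupport h ⊆ U) (hg : ContinuousOn g U) :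
    Integrable (fun y => h y * g y) :=
  (mul_cont hU hc hsub hg).integrable_of_hasCompactSupport hs.mul_right

/-- directional derivatives of a test function -/
theorem dir_props {φ : E d → ℝ} (hφ : ContDiff ℝ ∞ φ) (hc : HasCompactSupport φ) (v : E d) :
    Continuous (fun y => fderiv ℝ φ y v) ∧ HasCompactSupport (fun y => fderiv ℝ φ y v) ∧
      tsupport (fun y => fderiv ℝ φ y v) ⊆ tsupport φ := by
  have h1 : Continuous (fderiv ℝ φ) := hφ.continuous_fderiv (by simp)
  have h2 : tsupport (fun y => fderiv ℝ φ y v) ⊆ tsupport φ := by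
    refine closure_minimal ?_ (isClosed_tsupport φ)
    intro y hy
    refine tsupport_fderiv_subset ℝ (f := φ) (subset_tsupport _ ?_)
    intro h0
    apply hy
    show fderiv ℝ φ y v = 0
    rw [h0]
    rfl
  exact ⟨h1.clm_apply continuous_const, hc.of_isClosed_subset (isClosed_tsupport _) h2, h2⟩

/-- The formula `(dA)(v, w) = ∂_v (A w) - ∂_w (A v)`. -/
theorem ext_apply {A : E d → (E d) [⋀^Fin 1]→L[ℝ] ℝ} {y : E d} (hA : DifferentiableAt ℝ A y)
    (v w : E d) : extDeriv A y ![v, w] =
      fderiv ℝ (fun y => A y ![w]) y v - fderiv ℝ (fun y => A y ![v]) y w := by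
  have r0 : (0 : Fin 2).removeNth ![v, w] = ![w] := by
    funext i
    fin_cases i
    rfl
  have r1 : (1 : Fin 2).removeNth ![v, w] = ![v] := by
    funext i
    fin_cases i
    rfl
  rw [extDeriv_apply hA, Fin.sum_univ_two, r0, r1]
  simp only [Fin.val_zero, Fin.val_one, pow_zero, pow_one, one_smul, neg_smul,
    Matrix.cons_val_zero, Matrix.cons_val_one]
  ring

/-- the value of the current of a smooth one-form on a test function -/
theorem ibp {U : Set (E d)} (hU : IsOpen U) {φ : E d → ℝ} (hφ : ContDiff ℝ ∞ φ)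
    (hc : HasCompactSupport φ) (hs : tsupport φ ⊆ U) {A : E d → (E d) [⋀^Fin 1]→L[ℝ] ℝ}
    (hA : ContDiffOn ℝ ∞ A U) {S : E d → (E d) [⋀^Fin 2]→L[ℝ] ℝ} (hS : ContinuousOn S U)
    (v w : E d) :
    ∫ y, (φ y * S y ![v, w] + (fderiv ℝ φ y w * A y ![v] - fderiv ℝ φ y v * A y ![w])) =
      ∫ y, φ y * (S y ![v, w] + extDeriv A y ![v, w]) := by
  have hAd : ∀ y ∈ U, DifferentiableAt ℝ A y := fun y hy =>
    ((hA.contDiffAt (hU.mem_nhds hy)).differentiableAt (by simp))
  have hAu : ∀ u : E d, ContDiffOn ℝ ∞ (fun y => A y ![u]) U := fun u =>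
    (ContinuousAlternatingMap.apply ℝ (E d) ℝ ![u]).contDiff.comp_contDiffOn hA
  have hAc : ∀ u : E d, ContinuousOn (fun y => A y ![u]) U := fun u => (hAu u).continuousOn
  have hAd' : ∀ u : E d, ∀ y ∈ U, DifferentiableAt ℝ (fun y => A y ![u]) y := fun u y hy =>
    (((hAu u).contDiffAt (hU.mem_nhds hy)).differentiableAt (by simp))
  have hAf : ∀ u z : E d, ContinuousOn (fun y => fderiv ℝ (fun y => A y ![u]) y z) U :=
    fun u z => (((hAu u).continuousOn_fderiv_of_isOpen hU (by simp))).clm_apply
      continuousOn_const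
  have hSc : ContinuousOn (fun y => S y ![v, w]) U :=
    (ContinuousAlternatingMap.apply ℝ (E d) ℝ ![v, w]).continuous.comp_continuousOn hS
  have key : ∀ u z : E d, ∫ y, φ y * fderiv ℝ (fun y => A y ![u]) y z =
      - ∫ y, fderiv ℝ φ y z * A y ![u] := by
    intro u z
    obtain ⟨p1, p2, p3⟩ := dir_props hφ hc z
    refine integral_mul_fderiv_eq_neg_fderiv_mul_of_integrable ?_ ?_ ?_ ?_ ?_
    · exact mul_int hU p1 p2 (p3.trans hs) (hAc u)
    · exact mul_int hU hφ.continuous hc hs (hAf u z)
    · exact mul_int hU hφ.continuous hc hs (hAc u)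
    · exact fun x _ => (hφ.differentiable (by simp)) x
    · exact fun x hx => hAd' u x (hs hx)
  obtain ⟨p1, p2, p3⟩ := dir_props hφ hc v
  obtain ⟨q1, q2, q3⟩ := dir_props hφ hc w
  have i1 := mul_int hU hφ.continuous hc hs hSc
  have i2 := mul_int hU q1 q2 (q3.trans hs) (hAc v)
  have i3 := mul_int hU p1 p2 (p3.trans hs) (hAc w)
  have i4 := mul_int hU hφ.continuous hc hs (hAf w v)
  have i5 := mul_int hU hφ.continuous hc hs (hAf v w)
  have e1 : ∫ y, φ y * (S y ![v, w] + extDeriv A y ![v, w]) =
      ∫ y, (φ y * S y ![v, w] + (φ y * fderiv ℝ (fun y => A y ![w]) y v -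
        φ y * fderiv ℝ (fun y => A y ![v]) y w)) := by
    refine integral_congr_ae (Eventually.of_forall fun y => ?_)
    by_cases hy : y ∈ U
    · show φ y * (S y ![v, w] + extDeriv A y ![v, w]) = _
      rw [ext_apply (hAd y hy)]
      ring
    · have h0 : φ y = 0 := image_eq_zero_of_notMem_tsupport fun h => hy (hs h)
      simp only [h0, zero_mul, sub_zero, add_zero]
  have i45 : Integrable fun y => φ y * fderiv ℝ (fun y => A y ![w]) y v -
      φ y * fderiv ℝ (fun y => A y ![v]) y w := i4.sub i5
  have i23 : Integrable fun y => fderiv ℝ φ y w * A y ![v] - fderiv ℝ φ y v * A y ![w] :=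
    i2.sub i3
  rw [e1, integral_add i1 i45, integral_sub i4 i5, key w v, key v w,
    integral_add i1 i23, integral_sub i2 i3]
  ring

/-- passage to the limit -/
theorem cur_lim {U : Set (E d)} (hU : IsOpen U) {φ : E d → ℝ} (hφ : ContDiff ℝ ∞ φ)
    (hc : HasCompactSupport φ) (hs : tsupport φ ⊆ U)
    {A : ℕ → E d → (E d) [⋀^Fin 1]→L[ℝ] ℝ} {A' : E d → (E d) [⋀^Fin 1]→L[ℝ] ℝ}
    (hA : ∀ k, ContinuousOn (A k) U)
    {S : E d → (E d) [⋀^Fin 2]→L[ℝ] ℝ} (hS : ContinuousOn S U)
    (hlim : ∀ y ∈ U, ∀ v : E d, Tendsto (fun k => A k y ![v]) atTop (𝓝 (A' y ![v])))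
    {C : ℝ} (hC : ∀ k, ∀ y ∈ U, ∀ v : E d, |A k y ![v]| ≤ C * ‖v‖) (v : E d)
    {w : ℕ → E d} {w' : E d} (hw : Tendsto w atTop (𝓝 w')) :
    Tendsto (fun k => ∫ y, (φ y * S y ![v, w k] +
        (fderiv ℝ φ y (w k) * A k y ![v] - fderiv ℝ φ y v * A k y ![w k]))) atTop
      (𝓝 (∫ y, (φ y * S y ![v, w'] +
        (fderiv ℝ φ y w' * A' y ![v] - fderiv ℝ φ y v * A' y ![w'])))) := by
  obtain ⟨B, hB⟩ := hw.norm.bddAbove_range
  have hB' : ∀ k, ‖w k‖ ≤ B := fun k => hB (mem_range_self k)
  have hB0 : 0 ≤ B := (norm_nonneg _).trans (hB' 0)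
  have hφ' : Continuous (fderiv ℝ φ) := hφ.continuous_fderiv (by simp)
  have hSc : ∀ u, ContinuousOn (fun y => S y ![v, u]) U := fun u =>
    (ContinuousAlternatingMap.apply ℝ (E d) ℝ ![v, u]).continuous.comp_continuousOn hS
  have hAc : ∀ k u, ContinuousOn (fun y => A k y ![u]) U := fun k u =>
    (ContinuousAlternatingMap.apply ℝ (E d) ℝ ![u]).continuous.comp_continuousOn (hA k)
  have hd0 : ∀ y, y ∉ U → fderiv ℝ φ y = 0 := fun y hy => by
    by_contra hne
    exact hy (hs (tsupport_fderiv_subset ℝ (f := φ) (subset_tsupport _ hne)))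
  have hφ0 : ∀ y, y ∉ U → φ y = 0 := fun y hy =>
    image_eq_zero_of_notMem_tsupport fun h => hy (hs h)
  refine tendsto_integral_of_dominated_convergence
    (fun y => |φ y| * (‖S y‖ * ‖v‖ * B) + (‖fderiv ℝ φ y‖ * (B * (C * ‖v‖)) +
      ‖fderiv ℝ φ y‖ * (‖v‖ * (C * B)))) ?_ ?_ ?_ ?_
  · intro k
    obtain ⟨p1, p2, p3⟩ := dir_props hφ hc v
    obtain ⟨q1, q2, q3⟩ := dir_props hφ hc (w k)
    exact ((mul_int hU hφ.continuous hc hs (hSc (w k))).add
      ((mul_int hU q1 q2 (q3.trans hs) (hAc k v)).sub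
        (mul_int hU p1 p2 (p3.trans hs) (hAc k (w k))))).aestronglyMeasurable
  · have j1 : Integrable fun y => |φ y| * (‖S y‖ * ‖v‖ * B) := by
      refine mul_int hU hφ.continuous.abs hc.norm ?_
        ((hS.norm.mul continuousOn_const).mul continuousOn_const)
      refine (closure_mono ?_).trans hs
      intro y hy h0
      apply hy
      show |φ y| = 0
      rw [h0, abs_zero]
    have j2 : Integrable fun y => ‖fderiv ℝ φ y‖ :=
      hφ'.norm.integrable_of_hasCompactSupport (hc.fderiv (𝕜 := ℝ)).norm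
    exact j1.add ((j2.mul_const _).add (j2.mul_const _))
  · intro k
    refine Eventually.of_forall fun y => ?_
    by_cases hy : y ∈ U
    · have a1 : |φ y * S y ![v, w k]| ≤ |φ y| * (‖S y‖ * ‖v‖ * B) := by
        rw [abs_mul]
        refine mul_le_mul_of_nonneg_left ?_ (abs_nonneg _)
        exact (X169.WT.alt_bound (S y) v (w k)).trans
          (mul_le_mul_of_nonneg_left (hB' k) (by positivity))
      have c1 : |A k y ![v]| ≤ C * ‖v‖ := hC k y hy v
      have c0 : 0 ≤ C * ‖v‖ := (abs_nonneg _).trans c1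
      have c2 : |A k y ![w k]| ≤ C * ‖w k‖ := hC k y hy (w k)
      have a2 : |fderiv ℝ φ y (w k) * A k y ![v]| ≤ ‖fderiv ℝ φ y‖ * (B * (C * ‖v‖)) := by
        rw [abs_mul, ← mul_assoc]
        refine mul_le_mul ?_ c1 (abs_nonneg _) (by positivity)
        exact ((fderiv ℝ φ y).le_opNorm (w k)).trans
          (mul_le_mul_of_nonneg_left (hB' k) (norm_nonneg _))
      have hCB : C * ‖w k‖ ≤ C * B ∨ v = 0 := by
        by_cases hv : v = 0
        · exact Or.inr hv
        · left
          have : 0 ≤ C := by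
            by_contra hneg
            push Not at hneg
            have := mul_neg_of_neg_of_pos hneg (norm_pos_iff.2 hv)
            linarith
          exact mul_le_mul_of_nonneg_left (hB' k) this
      have a3 : |fderiv ℝ φ y v * A k y ![w k]| ≤ ‖fderiv ℝ φ y‖ * (‖v‖ * (C * B)) := by
        rcases hCB with h | h
        · rw [abs_mul, ← mul_assoc]
          exact mul_le_mul ((fderiv ℝ φ y).le_opNorm v) (c2.trans h) (abs_nonneg _)
            (by positivity)
        · rw [h]
          simp
      calc ‖φ y * S y ![v, w k] +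
            (fderiv ℝ φ y (w k) * A k y ![v] - fderiv ℝ φ y v * A k y ![w k])‖
          ≤ |φ y * S y ![v, w k]| + (|fderiv ℝ φ y (w k) * A k y ![v]| +
            |fderiv ℝ φ y v * A k y ![w k]|) := by
            rw [Real.norm_eq_abs]
            exact (abs_add_le _ _).trans (add_le_add le_rfl (abs_sub _ _))
        _ ≤ _ := add_le_add a1 (add_le_add a2 a3)
    · rw [hd0 y hy, hφ0 y hy]
      simp
  · refine Eventually.of_forall fun y => ?_
    by_cases hy : y ∈ U
    · have b1 : Tendsto (fun k => S y ![v, w k]) atTop (𝓝 (S y ![v, w'])) := by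
        have hcont : Continuous fun u : E d => S y ![v, u] := by
          refine (S y).cont.comp ?_
          refine continuous_pi fun i => ?_
          fin_cases i
          · exact continuous_const
          · exact continuous_id
        exact (hcont.tendsto w').comp hw
      have b2 : Tendsto (fun k => fderiv ℝ φ y (w k)) atTop (𝓝 (fderiv ℝ φ y w')) :=
        ((fderiv ℝ φ y).continuous.tendsto w').comp hw
      have b3 : Tendsto (fun k => A k y ![w k]) atTop (𝓝 (A' y ![w'])) := by
        have h1 : Tendsto (fun k => A k y ![w k - w']) atTop (𝓝 0) := by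
          refine squeeze_zero_norm (a := fun k => C * ‖w k - w'‖)
            (fun k => hC k y hy (w k - w')) ?_
          have h2 : Tendsto (fun k => ‖w k - w'‖) atTop (𝓝 0) := by
            have := (hw.sub_const w').norm
            simpa using this
          simpa using h2.const_mul C
        have h3 : ∀ k, A k y ![w k] = A k y ![w k - w'] + A k y ![w'] := by
          intro k
          have h4 := (A k y).map_update_add (m := ![w k]) (i := 0) (w k - w') w'
          have u1 : ∀ z : E d, Function.update ![w k] (0 : Fin 1) z = ![z] := by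
            intro z
            funext i
            fin_cases i
            simp
          rw [u1, u1, u1, sub_add_cancel] at h4
          exact h4
        have h5 := h1.add (hlim y hy w')
        rw [zero_add] at h5
        exact h5.congr fun k => (h3 k).symm
      exact (b1.const_mul _).add ((b2.mul (hlim y hy v)).sub (b3.const_mul _))
    · rw [hd0 y hy, hφ0 y hy]
      simp

end Pool.Agent.X169.WTF
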