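import Pool.Agent.X169.WTF.Def

/-!
Continuity of families of forms, and openness of taming in families.
-/

set_option autoImplicit false

open Set Filter Topology MeasureTheory
open scoped Manifold ContDiff

noncomputable section

namespace Pool.Agent.X169.WTF

open Pool.Agent.Y501.SYP Pool.Agent.X169.WTP

section

variable {d : ℕ} {X : Type} [TopologicalSpace X] [ChartedSpace (ES d) X]
  {S : Type} [TopologicalSpace S]

attribute [local instance] cs mf

theorem CInf.const {w : Form (ES d) X 2} (h : IsSmooth w) : CInf (S := S) fun _ => w := by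
  intro U φ hU N
  have h1 : ContinuousOn (iteratedFDeriv ℝ N (pb φ w)) U := by
    have h2 := (h U φ hU).continuousOn_iteratedFDerivWithin (m := N)
      (by exact_mod_cast le_top) hU.1.uniqueDiffOn
    exact h2.congr fun x hx => (iteratedFDerivWithin_of_isOpen N hU.1 hx).symm
  exact h1.comp continuousOn_snd fun q hq => hq.2

theorem CInf.comp {S' : Type} [TopologicalSpace S'] {Θ : S → Form (ES d) X 2} (h : CInf Θ)
    {g : S' → S} (hg : Continuous g) : CInf fun s => Θ (g s) := by
  intro U φ hU N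
  have h1 := h U φ hU N
  have h2 : ContinuousOn (fun q : S' × ES d => ((g q.1, q.2) : S × ES d)) (univ ×ˢ U) :=
    ((hg.comp continuous_fst).prodMk continuous_snd).continuousOn
  exact h1.comp (f := fun q : S' × ES d => ((g q.1, q.2) : S × ES d)) h2
    fun q hq => ⟨mem_univ _, hq.2⟩

theorem CInf.add {Θ Θ' : S → Form (ES d) X 2} (h : CInf Θ) (h' : CInf Θ')
    (hs : ∀ s, IsSmooth (Θ s)) (hs' : ∀ s, IsSmooth (Θ' s)) : CInf fun s => Θ s + Θ' s := by
  intro U φ hU N
  refine ((h U φ hU N).add (h' U φ hU N)).congr fun q hq => ?_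
  have e : pb φ (Θ q.1 + Θ' q.1) = pb φ (Θ q.1) + pb φ (Θ' q.1) := rfl
  have hm : U ∈ 𝓝 q.2 := hU.1.mem_nhds hq.2
  show iteratedFDeriv ℝ N (pb φ (Θ q.1 + Θ' q.1)) q.2 = _
  rw [e, iteratedFDeriv_add_apply
    (((hs q.1 U φ hU).contDiffAt hm).of_le (by exact_mod_cast le_top))
    (((hs' q.1 U φ hU).contDiffAt hm).of_le (by exact_mod_cast le_top))]
  rfl

theorem CInf.smul {Θ : S → Form (ES d) X 2} (h : CInf Θ) (hs : ∀ s, IsSmooth (Θ s))
    {c : S → ℝ} (hc : Continuous c) : CInf fun s => c s • Θ s := by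
  intro U φ hU N
  refine (((hc.comp continuous_fst).continuousOn).smul (h U φ hU N)).congr fun q hq => ?_
  have e : pb φ (c q.1 • Θ q.1) = c q.1 • pb φ (Θ q.1) := rfl
  have hm : U ∈ 𝓝 q.2 := hU.1.mem_nhds hq.2
  show iteratedFDeriv ℝ N (pb φ (c q.1 • Θ q.1)) q.2 = _
  rw [e, iteratedFDeriv_const_smul_apply
    (((hs q.1 U φ hU).contDiffAt hm).of_le (by exact_mod_cast le_top))]
  rfl

theorem CInf.sum {n : ℕ} (A : Finset (Fin n)) {Θ : Fin n → S → Form (ES d) X 2}
    (h : ∀ i, CInf (Θ i)) (hs : ∀ i s, IsSmooth (Θ i s)) : CInf fun s => ∑ i ∈ A, Θ i s := by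
  classical
  induction A using Finset.induction_on with
  | empty =>
    simp only [Finset.sum_empty]
    exact CInf.const ((smooth_iff _).2 Y501.SY.IsSmooth.zero)
  | insert a A ha ih =>
    simp only [Finset.sum_insert ha]
    exact CInf.add (h a) ih (hs a) fun s =>
      (smooth_iff _).2 (Y501.SY.IsSmooth.sum (d := d) (X := X) A
        fun i _ => (smooth_iff _).1 (hs i s))

end

section

variable {d : ℕ} {X : Type} [TopologicalSpace X] [ChartedSpace (ES d) X]
  {T : Type} [TopologicalSpace T]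

attribute [local instance] cs mf

theorem IsFamily.ac {J : T → End (ES d) X} (hJ : IsFamily J) (t : T) :
    IsAlmostComplex (J t) := by
  refine ⟨hJ.sq t, fun x₀ v => ?_⟩
  have h2 : ContinuousOn (fun p : ES d => ((t, p) : T × ES d)) (chartAt (ES d) x₀).target :=
    (Continuous.prodMk continuous_const continuous_id).continuousOn
  exact (hJ.cont x₀ v).comp (f := fun p : ES d => ((t, p) : T × ES d)) h2
    fun p hp => ⟨mem_univ _, hp⟩

theorem Q_contF [IsManifold 𝓘(ℝ, ES d) ∞ X] {w : Form (ES d) X 2} (hwm : IsSmooth w)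
    {J : T → End (ES d) X} (hJ : IsFamily J) (x : X) {t : T} {p v : ES d}
    (hp : p ∈ (chartAt (ES d) x).target) :
    ContinuousAt (fun z : (T × ES d) × ES d =>
      Pool.Agent.Y455.SY.Q (d := d) (X := X) w (J z.1.1) x z.1.2 z.2) ((t, p), v) := by
  have hop : IsOpen ((univ : Set T) ×ˢ (chartAt (ES d) x).target) :=
    isOpen_univ.prod (chartAt (ES d) x).open_target
  have h1 : ContinuousAt (pb (chartAt (ES d) x).symm w) p :=
    ((hwm _ _ ⟨(chartAt (ES d) x).open_target, contMDiffOn_chart_symm⟩).continuousOn).continuousAt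
      ((chartAt (ES d) x).open_target.mem_nhds hp)
  have h2 : ContinuousAt (fun z : T × ES d =>
      Y501.SY.inChart (d := d) (X := X) (J z.1) x z.2) (t, p) := by
    have h0 : ContinuousOn (fun z : T × ES d =>
      Y501.SY.inChart (d := d) (X := X) (J z.1) x z.2)
        ((univ : Set T) ×ˢ (chartAt (ES d) x).target) := by
      rw [continuousOn_clm_apply]
      exact fun v => hJ.cont x v
    exact h0.continuousAt (hop.mem_nhds ⟨mem_univ _, hp⟩)
  have h3 : ContinuousAt (fun z : (T × ES d) × ES d => pb (chartAt (ES d) x).symm w z.1.2)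
      ((t, p), v) :=
    ContinuousAt.comp (f := fun z : (T × ES d) × ES d => z.1.2) (x := ((t, p), v)) h1
      (continuous_snd.comp continuous_fst).continuousAt
  have h4 : ContinuousAt (fun z : (T × ES d) × ES d =>
      Y501.SY.inChart (d := d) (X := X) (J z.1.1) x z.1.2) ((t, p), v) :=
    ContinuousAt.comp (f := Prod.fst) (x := ((t, p), v)) h2 continuousAt_fst
  have h5 : ContinuousAt (fun z : (T × ES d) × ES d =>
      Y501.SY.inChart (d := d) (X := X) (J z.1.1) x z.1.2 z.2) ((t, p), v) :=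
    h4.clm_apply continuousAt_snd
  have h6 : ContinuousAt (fun z : (T × ES d) × ES d =>
      (![z.2, Y501.SY.inChart (d := d) (X := X) (J z.1.1) x z.1.2 z.2] : Fin 2 → ES d))
      ((t, p), v) := by
    rw [continuousAt_pi]
    intro i
    fin_cases i
    · exact continuousAt_snd
    · exact h5
  exact h3.eval h6

theorem tames_nhds [IsManifold 𝓘(ℝ, ES d) ∞ X] {w : Form (ES d) X 2} (hwm : IsSmooth w)
    {J : T → End (ES d) X} (hJ : IsFamily J) {t₀ : T} {x : X} (h : TamesAt w (J t₀) x) :
    ∀ᶠ q : T × X in 𝓝 (t₀, x), TamesAt w (J q.1) q.2 := by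
  have hx : (chartAt (ES d) x) x ∈ (chartAt (ES d) x).target := mem_chart_target _ x
  have hcomp : IsCompact (Metric.sphere (0 : ES d) 1) := by
    have : ProperSpace (ES d) := (inferInstance : ProperSpace (EuclideanSpace ℝ (Fin d)))
    exact isCompact_sphere _ _
  have h0 : ∀ v : ES d, v ≠ 0 →
      0 < Pool.Agent.Y455.SY.Q (d := d) (X := X) w (J t₀) x (chartAt (ES d) x x) v := by
    have h' : ∀ y, y = x → TamesAt w (J t₀) y := by
      rintro y rfl
      exact h
    exact (Pool.Agent.Y455.SY.tames_iff (d := d) (X := X) w (J t₀) x hx).1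
      (h' _ ((chartAt (ES d) x).left_inv (mem_chart_source _ x)))
  have h1 : ∀ᶠ z : T × ES d in 𝓝 (t₀, chartAt (ES d) x x), ∀ v ∈ Metric.sphere (0 : ES d) 1,
      0 < Pool.Agent.Y455.SY.Q (d := d) (X := X) w (J z.1) x z.2 v := by
    refine hcomp.eventually_forall_of_forall_eventually fun v hv => ?_
    have hv0 : v ≠ 0 := by
      rintro rfl
      simp at hv
    exact (Q_contF hwm hJ x hx).eventually (lt_mem_nhds (h0 v hv0))
  have h2 : Tendsto (fun q : T × X => ((q.1, chartAt (ES d) x q.2) : T × ES d)) (𝓝 (t₀, x))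
      (𝓝 (t₀, chartAt (ES d) x x)) := by
    have hc : ContinuousAt (chartAt (ES d) x) x :=
      (chartAt (ES d) x).continuousAt (mem_chart_source _ x)
    have hc' : ContinuousAt (fun q : T × X => chartAt (ES d) x q.2) (t₀, x) :=
      ContinuousAt.comp (f := Prod.snd) (x := (t₀, x)) hc continuousAt_snd
    exact (continuousAt_fst.prodMk hc').tendsto
  have h3 : ∀ᶠ q : T × X in 𝓝 (t₀, x), q.2 ∈ (chartAt (ES d) x).source := by
    have : Tendsto (Prod.snd : T × X → X) (𝓝 (t₀, x)) (𝓝 x) := continuousAt_snd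
    exact this ((chartAt (ES d) x).open_source.mem_nhds (mem_chart_source _ x))
  filter_upwards [h2.eventually h1, h3] with q h4 h5
  have h6 := (Pool.Agent.Y455.SY.tames_iff (d := d) (X := X) w (J q.1) x
    ((chartAt (ES d) x).map_source h5)).2
    ((Pool.Agent.Y455.SY.pos_iff (d := d) _
      (fun s v => Pool.Agent.Y455.SY.Q_smul (d := d) (X := X) w (J q.1) x _ v s)).2 h4)
  have h7 : ∀ y, y = q.2 → TamesAt w (J q.1) y → TamesAt w (J q.1) q.2 := by
    rintro y rfl h
    exact h
  exact h7 _ ((chartAt (ES d) x).left_inv h5) h6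

theorem tames_open [IsManifold 𝓘(ℝ, ES d) ∞ X] [CompactSpace X] {w : Form (ES d) X 2}
    (hwm : IsSmooth w) {J : T → End (ES d) X} (hJ : IsFamily J) {t₀ : T}
    (h : ∀ x, TamesAt w (J t₀) x) : ∀ᶠ t in 𝓝 t₀, ∀ x, TamesAt w (J t) x := by
  have h1 : ∀ᶠ t in 𝓝 t₀, ∀ x ∈ (univ : Set X), TamesAt w (J t) x :=
    isCompact_univ.eventually_forall_of_forall_eventually fun x _ => tames_nhds hwm hJ (h x)
  filter_upwards [h1] with t ht x using ht x (mem_univ x)

end

end Pool.Agent.X169.WTF
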